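import Pool.Agent.H93.ES.Targets
import Pool.Agent.H46.DE.DCR

/-!
# MP_c59857_nt, row MNT: the conditional entropy of long words, more primes
-/

set_option autoImplicit false

open Finset Pool.Agent.H18.MR Pool.Agent.H93.DE Pool.Agent.H93.ES

namespace Pool.Agent.H5.ES

theorem pf_MNT (hU : T_UNI) (hF : T_FAM) (hC : T_CND) : T_MNT := by
  intro N k L M M' _ x hM' hMM' hd
  obtain ⟨hU1, hU2⟩ := hU
  have hM : 0 < M := Nat.pos_of_dvd_of_pos hMM' hM'
  have hdM : M ∣ N := hMM'.trans hd
  have i1 : NeZero M := ⟨hM.ne'⟩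
  have i2 : NeZero M' := ⟨hM'.ne'⟩
  set μ := unif N with hμ
  have e1 : hc x (k * L) M' = ent μ (fun n => (wd x (k * L) n, rs N M' n)) - Real.log M' := by
    unfold hc
    rw [dif_neg hM'.ne']
  have e2 : hc x L M = ent μ (fun n => (wd x L n, rs N M n)) - Real.log M := by
    unfold hc
    rw [dif_neg hM.ne']
  have e3 : ent μ (fun n => rs N M' n) = Real.log M' := (hU2 N M' hd).2
  have e4 : ent μ (fun n => rs N M n) = Real.log M := (hU2 N M hdM).2
  -- the long word is a function of the family of the short words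
  have h1 : ent μ (fun n => (wd x (k * L) n, rs N M' n)) ≤
      ent μ (fun n => ((fun i : Fin k => wd x L (n + (((i : ℕ) * L : ℕ) : ZMod N)) :
        Fin k → Fin L → Bool), rs N M' n)) := by
    have h3 := ent_comp_le μ (fun n => ((fun i : Fin k => wd x L (n + (((i : ℕ) * L : ℕ) :
        ZMod N)) : Fin k → Fin L → Bool), rs N M' n))
      (fun t => ((fun j : Fin (k * L) => t.1
        ⟨(j : ℕ) / L, Nat.div_lt_of_lt_mul (by rw [Nat.mul_comm L k]; exact j.2)⟩
        ⟨(j : ℕ) % L, Nat.mod_lt _ (Nat.pos_of_ne_zero (by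
          intro h0
          have h8 : (j : ℕ) < k * L := j.2
          have h9 : k * L = 0 := by simp [h0]
          omega))⟩ : Fin (k * L) → Bool), t.2))
    refine le_of_eq_of_le ?_ h3
    congr 1
    funext n
    refine Prod.ext ?_ rfl
    funext j
    simp only [wd]
    congr 1
    rw [add_assoc, ← Nat.cast_add, Nat.mul_comm ((j : ℕ) / L) L, Nat.div_add_mod]
  have h2 := hF (ZMod N) (Fin L → Bool) (ZMod M') μ k
    (fun i n => wd x L (n + (((i : ℕ) * L : ℕ) : ZMod N))) (fun n => rs N M' n)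
  have h3 : ∀ i : Fin k, ent μ (fun n => (wd x L (n + (((i : ℕ) * L : ℕ) : ZMod N)),
      rs N M' n)) = ent μ (fun n => (wd x L n, rs N M' n)) := by
    intro i
    have h4 := hU1 ((Fin L → Bool) × ZMod M') N (fun n => (wd x L n, rs N M' n))
      (((i : ℕ) * L : ℕ) : ZMod N)
    refine Eq.trans ?_ h4
    refine ent_congr_inj μ _ _ (fun t => (t.1, t.2 + (((i : ℕ) * L : ℕ) : ZMod M')))
      (fun t => (t.1, t.2 - (((i : ℕ) * L : ℕ) : ZMod M'))) ?_ ?_
    · intro n
      simp only
      rw [Pool.Agent.H46.DE.rs_add hd]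
    · intro n
      simp only
      rw [Pool.Agent.H46.DE.rs_add hd, add_sub_cancel_right]
  have h5 := hC (ZMod N) (Fin L → Bool) (ZMod M') (ZMod M) μ (fun n => wd x L n)
    (fun n => rs N M' n) (ZMod.castHom hMM' (ZMod M))
  have h6 : ∀ n : ZMod N, (ZMod.castHom hMM' (ZMod M)) (rs N M' n) = rs N M n := by
    intro n
    unfold rs
    rw [map_natCast]
  simp only [h6] at h5
  rw [e3, e4] at h5
  rw [e3] at h2
  have h7 : ∑ i : Fin k, (ent μ (fun n => (wd x L (n + (((i : ℕ) * L : ℕ) : ZMod N)),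
      rs N M' n)) - Real.log M') ≤ k * hc x L M := by
    calc ∑ i : Fin k, (ent μ (fun n => (wd x L (n + (((i : ℕ) * L : ℕ) : ZMod N)),
          rs N M' n)) - Real.log M')
        ≤ ∑ _i : Fin k, hc x L M := by
          apply Finset.sum_le_sum
          intro i _
          rw [h3 i, e2]
          exact h5
      _ = k * hc x L M := by
          rw [Finset.sum_const, Finset.card_univ, Fintype.card_fin, nsmul_eq_mul]
  rw [e1]
  linarith [h1, h2, h7]

end Pool.Agent.H5.ES
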